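import Pool.Agent.V7H2.HW.Main

/-!
# The Hasse-Weil conjecture for rational elliptic curves over number fields of degree at most five

`E` is an elliptic curve over `ℚ`.

1. Let `F` be a totally real field and `K / F` an extension of degree at most five. If the degree is
   five, suppose that every real place of `F` has exactly one real place of `K` above it, or that `K`
   is totally real, or that the Galois group of the Galois closure of `K / F` is soluble. Then `L(E/K, s)`
   is entire and `Λ(E/K, s) = w(E/K) Λ(E/K, 2 - s)`.
2. The Hasse-Weil conjecture holds for `E` over every number field `K` of degree at most five, except
   possibly for the quintic fields with exactly three real embeddings.

The new cases are the extensions of degree five with Galois group `A₅` or `S₅`. Idea: let `V` be the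
representation of the Galois group of `F` on the functions with sum zero on the embeddings of `K` over
`F`; `L(E/K, s) = L(E/F, s) L(E ⊗ V, s)`. It is orthogonal of dimension four. It is shown here that a
transitive permutation group of degree five is soluble or contains the alternating group. In the
second case complex conjugations act as double transpositions, and `V` (or a twist) is the tensor product
of two icosahedral representations of dimension two (group `A₅`) or the Asai representation of an
icosahedral representation `τ` of the quadratic extension `F'` of `F` defined by the discriminant, which
is totally real. Since the alternating group is simple and its commutant on `V` consists of the
scalars, complex conjugations are not scalar under `τ`, so `τ` is totally odd, and by the theorem of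
Pilloni-Stroh and Sasaki (Khare-Wintenberger for `ℚ`) it is automorphic. So `V` is automorphic, and
the theory of Rankin and Selberg applies to `E` (over `F`, by Dieulefait's base change) and `V`.

The theorems of the literature which are used are the fields of the structure `Known`, each stated in
general form for a property `Auto` of Artin representations, automorphy.
-/

set_option autoImplicit false

namespace Pool.Agent.Results.MP_bf9450_nt.DegreeFiveH2

open NumberField Pool.Agent.V7H2.HW

/-- `E` is an elliptic curve over `ℚ`, `Auto` the automorphy of Artin representations, `N` and `w` the norm
of the conductor and the root number of `E` over number fields. The theorems of the literature imply
the Hasse-Weil conjecture for `E` over `K` (1) if `K` is an extension of degree at most five of a totally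
real field `F` such that in degree five every real place of `F` has exactly one real place of `K` above
it, or `K` is totally real, or the Galois group of the Galois closure is soluble; (2) if `K` is a number
field of degree at most five and not a quintic field with exactly three real embeddings. -/
theorem result {E : WeierstrassCurve ℚ} [E.IsElliptic] {Auto : Property} {N : OfField ℕ}
    {w : OfField ℤ} (T : Known E Auto N w) : OverTotallyReal E N w ∧ DegreeAtMostFive E N w :=
  main T

end Pool.Agent.Results.MP_bf9450_nt.DegreeFiveH2
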