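import Pool.Agent.V7H44.HF.Count
import Pool.Agent.X288.L2.Inst

/-!
# Rational elliptic curves over the extensions of an arbitrary number field: the line `Re s = 3/2`

`E : y² = x³ + a x + b` is an elliptic curve over `ℚ` with a newform (`IsModular`; by the modularity
theorem this is every elliptic curve over `ℚ`), `K` is ANY number field and `L_1, …, L_k` are finite
extensions of `K`, pairwise linearly disjoint over `K` (`L_i ⊗_K L_j` is a field; for example different
quadratic extensions of `K`, or different cyclic extensions of the same prime degree).  Let `r_j` be the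
number of the orbits of the Galois group of `K` on the pairs of `K`-embeddings of `L_j` (`r_j ≤ [L_j : K]`,
and `r_j = 2` if the Galois group is doubly transitive, for example if `[L_j : K] = 2`, or if it is the
symmetric or the alternating group).

The functions `L(E/K, s)` and `L(E/L_j, s)` are not known to have a continuation.  Let
`m_K(τ)` and `m_j(τ)` be the orders of `L(E/K, s)` and `L(E/L_j, s)` at the point `3/2 + iτ` of the boundary
of the half plane of absolute convergence.  Then the sum over all the points of the line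

  `∑_τ ( m_K(τ)² + ∑_j (m_j(τ) - m_K(τ))² / (r_j - 1) ) ≤ min([K : ℚ], 4)`,

where the sum is taken over the points and fields with a meromorphic continuation to a neighbourhood of
the point; without any continuation the same holds asymptotically for the quotients
`log |L(3/2 + iτ + ε)| / log(1/ε)`, `ε → 0+`, in the place of the orders.

The bound does not depend on `E` and on the fields `L_j`, and it is at most `4` for all `K`.  In
particular, for every number field `K`, `L(E/K, s)` has at most `4` zeros and poles on the whole line,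
and for all but at most `4` of the quadratic extensions `L` of `K` (or of any pairwise disjoint
extensions of `K` with doubly transitive groups, of any degrees), the orders of `L(E/L, s)` and of
`L(E/K, s)` are the same at all the points of the line; at most `2` have different orders at a point
which is not real.  For extensions of degree at most `d` the number is at most `4 (d - 1)`.

The starting file `BaseChangeOrbits` is the case `K = ℚ`, one field `L_1` and one point; the starting
file `ModularEdgeNumberFields` of `MP_fb225e_nt` has, for `K = ℚ`, Bessel's inequality for several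
fields.

Proof.  The second moment of `a_v / √(N v)` over the primes of degree one of `K` is at most `[K : ℚ]`, by
the theorem of Rankin and Selberg for the newform and because at most `[K : ℚ]` primes of `K` lie above
a prime number, and at most `4` by Hasse's theorem.  The functions `v ↦ (fix_j(Frob_v) - 1) cos(τ log N v)`, and `v ↦ cos(τ log N v)`, where
`fix_j` is the number of the fixed embeddings of `L_j`, are pairwise orthogonal for different `j` and for
different `|τ|`, by Chebotarev's theorem and because the Galois group is transitive on the pairs of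
embeddings of `L_j` and `L_k`.  The theorem is Bessel's inequality.
-/

set_option autoImplicit false

namespace Pool.Agent.Results.MP_bf9450_nt.DisjointExtensionsH44

open NumberField IsDedekindDomain Filter Topology
open Pool.Agent.X288.L2 (EC pairOrbits)
open Pool.Agent.TH322.BC.Edge (MinimalModels size HasOrder)
open Pool.Agent.Y722.EP (IsModular)
open scoped TensorProduct

/-- `V₀` and `V` have continuations to neighbourhoods of `3/2 + iτ`, with different orders there. -/
def Differ {K L : Type} [Field K] [NumberField K] [Field L] [NumberField L]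
    (V₀ : HeightOneSpectrum (𝓞 K) → WeierstrassCurve (𝓞 K))
    (V : HeightOneSpectrum (𝓞 L) → WeierstrassCurve (𝓞 L)) (τ : ℝ) : Prop :=
  ∃ m₀ m : ℤ, HasOrder V₀ τ m₀ ∧ HasOrder V τ m ∧ m ≠ m₀

open Pool.Agent.V7H44.HF in
/-- **The L-functions of a modular elliptic curve over disjoint extensions of a number field.**  Let
`E : y² = x³ + a x + b` be a modular elliptic curve over `ℚ`, `K` a number field, `V₀` local minimal models
of `E` over `K`, `L_j` finitely many finite extensions of `K` such that `L_j ⊗_K L_k` is a field for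
`j ≠ k`, `V j` local minimal models of `E` over `L_j`, `r_j = pairOrbits K (L j)`, and
`n = min([K : ℚ], 4)`.
1. For all finite sets `H` of real numbers and all `η > 0`
`∑_{τ ∈ H} (size_K² + ∑_j (size_j - size_K)² / (r_j - 1)) ≤ n + η` for all small `ε > 0`, where
`size = log |L(3/2 + iτ + ε)| / log(1/ε)`.
2. `∑_{τ ∈ T} m_K(τ)² + ∑_{(j, τ) ∈ S} (m_j(τ) - m_K(τ))² / (r_j - 1) ≤ n` for the orders, for all finite
sets `T` and `S` of points where there are continuations.
3. If `L_j ≠ K` and `r_j ≤ r + 1` for all `j`, then at most `r n` of the fields `L_j` have an order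
different from the one over `K` at some point of the line, and at most `r n / 2` at a point which is
not real.
4. `L(E/K, s)` has at most `n` zeros and poles on the line.
5. `r_j ≤ [L_j : K]`.
The quadratic twists of `X_0(11)` and `X_0(14)` are modular. -/
theorem result :
    (∀ a b : ℤ, 4 * a ^ 3 + 27 * b ^ 2 ≠ 0 → IsModular a b →
      ∀ (K : Type) [Field K] [NumberField K]
        (V₀ : HeightOneSpectrum (𝓞 K) → WeierstrassCurve (𝓞 K)), MinimalModels (EC K a b) V₀ →
      ∀ (ι : Type) [Fintype ι] (L : ι → Type) [∀ j, Field (L j)] [∀ j, NumberField (L j)]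
        [∀ j, Algebra K (L j)]
        (V : ∀ j, HeightOneSpectrum (𝓞 (L j)) → WeierstrassCurve (𝓞 (L j))),
        (∀ j, MinimalModels (EC (L j) a b) (V j)) →
        (∀ j k, j ≠ k → IsField (L j ⊗[K] L k)) →
        (∀ (H : Finset ℝ) (η : ℝ), 0 < η → ∀ᶠ ε : ℝ in 𝓝[>] 0,
          ∑ τ ∈ H, (size V₀ τ ε ^ 2 +
            ∑ j, (size (V j) τ ε - size V₀ τ ε) ^ 2 / ((pairOrbits K (L j) : ℝ) - 1)) ≤
          ((min (Module.finrank ℚ K) 4 : ℕ) : ℝ) + η) ∧
        (∀ (T : Finset ℝ) (S : Finset (ι × ℝ)) (m₀ : ℝ → ℤ) (m : ι × ℝ → ℤ),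
          (∀ τ ∈ T, HasOrder V₀ τ (m₀ τ)) →
          (∀ z ∈ S, HasOrder V₀ z.2 (m₀ z.2) ∧ HasOrder (V z.1) z.2 (m z)) →
          ∑ τ ∈ T, (m₀ τ : ℝ) ^ 2 +
            ∑ z ∈ S, ((m z : ℝ) - m₀ z.2) ^ 2 / ((pairOrbits K (L z.1) : ℝ) - 1) ≤
          ((min (Module.finrank ℚ K) 4 : ℕ) : ℝ)) ∧
        (∀ r : ℕ, (∀ j, 1 < Module.finrank K (L j) ∧ pairOrbits K (L j) ≤ r + 1) →
          Nat.card {j // ∃ τ, Differ V₀ (V j) τ} ≤ r * min (Module.finrank ℚ K) 4 ∧
          2 * Nat.card {j // ∃ τ, τ ≠ 0 ∧ Differ V₀ (V j) τ} ≤ r * min (Module.finrank ℚ K) 4) ∧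
        {τ : ℝ | ∃ m : ℤ, m ≠ 0 ∧ HasOrder V₀ τ m}.encard ≤ (min (Module.finrank ℚ K) 4 : ℕ) ∧
        ∀ j, pairOrbits K (L j) ≤ Module.finrank K (L j)) ∧
    ∀ g : ℤ, g ≠ 0 → IsModular (-13392 * g ^ 2) (-1080432 * g ^ 3) ∧
      IsModular (5805 * g ^ 2) (-285714 * g ^ 3) := by
  classical
  refine ⟨fun a b hab hmod K _ _ V₀ hV₀ ι _ L _ _ _ V hV hd => ⟨?_, ?_, ?_, ?_, ?_⟩,
    fun g hg => ⟨Pool.Agent.X288.L2.modular11 hg, Pool.Agent.X288.L2.modular14 hg⟩⟩
  · exact fun H η hη => bessel_line hab hmod L hV₀ hV hd H hη
  · intro T S m₀ m hm₀ hm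
    have h1 := bessel_lims hab hmod L hV₀ hV hd T S (fun τ => -(m₀ τ : ℝ))
      (fun z => -(m z : ℝ) - -(m₀ z.2 : ℝ))
      (fun τ hτ => order_lim (K := K) hab hV₀ (hm₀ τ hτ))
      (fun z hz => (order_lim (K := K) hab (hV z.1) (hm z hz).2).sub
        (order_lim (K := K) hab hV₀ (hm z hz).1))
    refine le_trans (le_of_eq ?_) h1
    congr 1
    · exact Finset.sum_congr rfl fun τ _ => (neg_sq _).symm
    · refine Finset.sum_congr rfl fun z _ => ?_
      congr 1
      ring
  · intro r hr
    have key : ∀ (P : ℝ → Prop), (∀ τ, P τ → True) → ∀ D : Finset ι,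
        (∀ j, j ∈ D ↔ ∃ τ, P τ ∧ Differ V₀ (V j) τ) →
        D.card ≤ r * min (Module.finrank ℚ K) 4 ∧ ((∀ τ, P τ → τ ≠ 0) →
          2 * D.card ≤ r * min (Module.finrank ℚ K) 4) := by
      intro P _ D hD
      have hD' : ∀ j ∈ D, ∃ τ : ℝ, P τ ∧ ∃ y : ℝ, 1 ≤ y ^ 2 ∧
          Tendsto (fun ε => size (V j) τ ε - size V₀ τ ε) (𝓝[>] 0) (𝓝 y) := by
        intro j hj
        obtain ⟨τ, hP, m₀, m, h1, h2, h3⟩ := (hD j).1 hj
        refine ⟨τ, hP, -(m : ℝ) - -(m₀ : ℝ), ?_, (order_lim (K := K) hab (hV j) h2).sub
          (order_lim (K := K) hab hV₀ h1)⟩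
        have h4 : m - m₀ ≠ 0 := sub_ne_zero.2 h3
        have h5 := Int.one_le_abs h4
        have h6 : (1 : ℝ) ≤ |((m - m₀ : ℤ) : ℝ)| := by exact_mod_cast h5
        have h7 := pow_le_pow_left₀ zero_le_one h6 2
        rw [one_pow, sq_abs] at h7
        push_cast at h7
        linarith [h7, (by ring : (-(m : ℝ) - -(m₀ : ℝ)) ^ 2 = ((m : ℝ) - m₀) ^ 2)]
      choose! t ht y hy hlim using hD'
      obtain ⟨c1, c2⟩ := count hab hmod L hV₀ hV hd hr D t y hlim hy
      exact ⟨c1, fun hP => c2 fun j hj => hP _ (ht j hj)⟩
    constructor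
    · have h1 := (key (fun _ => True) (fun _ _ => trivial)
        (Finset.univ.filter fun j => ∃ τ, Differ V₀ (V j) τ) (fun j => by
          simp)).1
      rwa [Nat.card_eq_fintype_card, Fintype.card_subtype]
    · have h1 := (key (fun τ => τ ≠ 0) (fun _ _ => trivial)
        (Finset.univ.filter fun j => ∃ τ, τ ≠ 0 ∧ Differ V₀ (V j) τ) (fun j => by
          simp)).2 (fun τ h => h)
      rwa [Nat.card_eq_fintype_card, Fintype.card_subtype]
  · exact count_points hab hmod hV₀
  · exact fun j => pairOrbits_le K (L j)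

end Pool.Agent.Results.MP_bf9450_nt.DisjointExtensionsH44
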