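import Pool.Agent.V7H83.BO.J
import Pool.Agent.X288.L2.Inst

/-!
# The quadratic twists of a rational elliptic curve over number fields: the line `Re s = 3/2`

`E : y² = x³ + a x + b` is an elliptic curve over `ℚ` with a newform (`IsModular`; by the modularity
theorem this is every elliptic curve over `ℚ`), `K` is any number field, `N_K = min([K : ℚ], 4)`, and
`E_D`, for `D ∈ K^*/K^{*2}`, are the quadratic twists of `E` over `K`.  Neither `L(E_D/K, s)` nor
`L(E_D/F, s)`, for extensions `F` of `K`, are known to have a continuation.  If `D` is in `ℚ`, then `E_D` is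
an elliptic curve over `ℚ`, as in the problem; for `K = ℚ` all `E_D` are.  Let `m_F(D, t)` be the order of
`L(E_D/F, s)` at the point `3/2 + i t` of the edge of absolute convergence.

1. `∑_D ∑_t m_K(D, t)² ≤ N_K`, over any finite number of pairs with continuations; without any
continuation the same holds for the quotients `log |L(3/2 + i t + ε)| / log(1/ε)`, `ε → 0+`.  So for EVERY
number field `K`, of any degree, for all but at most `4` of the infinitely many quadratic twists the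
function `L(E_D/K, s)` has neither zeros nor poles on the whole line; at most `2` of the twists have one
which is not real.

2. Let `F/K` be a finite extension of degree `d`, `M` its Galois closure, and `r` the number of the
orbits of the Galois group on the pairs of embeddings of `F`.  Suppose that for each `D` of a family at
most `q` of the elements `D'` are such that `√(D D')` is in `M`.  Then
`∑_{D, t} (m_F(D, t) - m_K(D, t))² ≤ N_K min((d - 1)², q (r - 1))`, and at most `q N_F` of the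
functions `L(E_D/F, s)` have zeros or poles on the line.  (One can take `q = 1` for all
`D ∈ K^*/K^{*2}` if `M` contains no quadratic extension of `K`, and `q = 2` if it contains one, for
example if the Galois group is the symmetric group, where `r = 2`.)  So for all but at most `4 + 4 q` of
the quadratic twists there are no zeros and poles on the line over `K` and over `F`.

3. Let `L_j` be finitely many extensions of `K`, `L_i ⊗_K L_j` a field for `i ≠ j`, with the numbers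
`r_j`, and suppose that the composita of two of the Galois closures contain no roots `√(D D')`.  Then
`∑_{D, t} (m_K(D, t)² + ∑_j (m_j(D, t) - m_K(D, t))² / (r_j - 1)) ≤ N_K`.  So if `r_j ≤ r + 1`, then for
all but at most `r N_K` of the PAIRS `(D, L_j)` the orders of `L(E_D/L_j, s)` and `L(E_D/K, s)` are the
same on the whole line.

Proof.  The second moment of `a_v / √(N v)` over the primes of degree one of `K` is at most `[K : ℚ]` by
Rankin and Selberg, and at most `4` by Hasse.  The functions `χ_D(Frob_v) cos(t log N v)` for different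
`D` and different `|t|` are orthogonal, and the functions
`χ_D(Frob_v) (fix_F(Frob_v) - 1) cos(t log N v)` have a Gram matrix which is bounded by the theorem of
Chebotarev, by the inequality `|fix_F - 1| ≤ d - 1` and by Schur's test.
-/

set_option autoImplicit false

namespace Pool.Agent.Results.MP_bf9450_nt.QuadraticTwistsH83

open NumberField IsDedekindDomain Filter Topology
open Pool.Agent.X288.L2 (EC pairOrbits)
open Pool.Agent.TH322.BC.Edge (TwistOver size HasOrder)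
open Pool.Agent.Y722.EP (IsModular)
open Pool.Agent.V7H83.BO (N4)
open scoped TensorProduct

/-- `L(s)` has a continuation to a neighbourhood of `3/2 + iτ`, with a zero or a pole there. -/
def ZeroOrPole {K : Type} [Field K] [NumberField K]
    (V : HeightOneSpectrum (𝓞 K) → WeierstrassCurve (𝓞 K)) (τ : ℝ) : Prop :=
  ∃ m : ℤ, m ≠ 0 ∧ HasOrder V τ m

/-- `V₀` and `V` have continuations to neighbourhoods of `3/2 + iτ`, with different orders there. -/
def Differ {K L : Type} [Field K] [NumberField K] [Field L] [NumberField L]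
    (V₀ : HeightOneSpectrum (𝓞 K) → WeierstrassCurve (𝓞 K))
    (V : HeightOneSpectrum (𝓞 L) → WeierstrassCurve (𝓞 L)) (τ : ℝ) : Prop :=
  ∃ m₀ m : ℤ, HasOrder V₀ τ m₀ ∧ HasOrder V τ m ∧ m ≠ m₀

/-- `x ∈ K` has a square root in the compositum of the Galois closures of `F` and `F'` over `K` (the
field generated by the images of all the embeddings of `F` and `F'`). -/
def RootInClosures (K F F' : Type) [Field K] [Field F] [Field F'] [Algebra K F] [Algebra K F']
    (x : K) : Prop :=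
  ∃ y ∈ ((⨆ i : F →ₐ[K] AlgebraicClosure K, i.fieldRange) ⊔
      (⨆ i : F' →ₐ[K] AlgebraicClosure K, i.fieldRange) : IntermediateField K (AlgebraicClosure K)),
    y ^ 2 = algebraMap K (AlgebraicClosure K) x

/-- `min([K : ℚ], 4) min((d - 1)², q (r - 1))`, `d = [F : K]`, `r = pairOrbits K F`. -/
noncomputable def bound (K F : Type) [Field K] [NumberField K] [Field F] [NumberField F]
    [Algebra K F] (q : ℕ) : ℝ :=
  (N4 K : ℝ) *
    min (((Module.finrank K F : ℝ) - 1) ^ 2) ((q : ℝ) * ((pairOrbits K F : ℝ) - 1))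

/-- The product `D_k D_l` for two of the twists. -/
def prod {K : Type} [Field K] [NumberField K] {a b : ℤ} {ι : Type}
    (X₀ : ι → TwistOver (EC K a b) K) (k l : ι) : K :=
  ((X₀ k).D : K) * ((X₀ l).D : K)

section
variable {K : Type} [Field K] [NumberField K] {a b : ℤ} {ι : Type} [Fintype ι]

open Pool.Agent.V7H83.BO in
theorem ext_bound (hab : 4 * a ^ 3 + 27 * b ^ 2 ≠ 0) (hmod : IsModular a b)
    {F : Type} [Field F] [NumberField F] [Algebra K F]
    (X₀ : ι → TwistOver (EC K a b) K) (X : ι → TwistOver (EC K a b) F)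
    (hX : ∀ k, (X k).D = algebraMap (𝓞 K) (𝓞 F) (X₀ k).D)
    (hd : ∀ k l, k ≠ l → ¬ IsSquare (prod X₀ k l)) {q : ℕ}
    (hq : ∀ k, Nat.card {l // RootInClosures K F F (prod X₀ k l)} ≤ q)
    (H : Finset (ι × ℝ)) (η : ℝ) (hη : 0 < η) :
    ∀ᶠ ε : ℝ in 𝓝[>] 0,
      ∑ z ∈ H, (size (X z.1).V z.2 ε - size (X₀ z.1).V z.2 ε) ^ 2 ≤ bound K F q + η := by
  unfold bound
  exact ext_fin hab hmod X₀ X hX hd hq H η hη

open Pool.Agent.V7H83.BO in
theorem own_orders (hab : 4 * a ^ 3 + 27 * b ^ 2 ≠ 0) (hmod : IsModular a b)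
    (X₀ : ι → TwistOver (EC K a b) K) (hd : ∀ k l, k ≠ l → ¬ IsSquare (prod X₀ k l))
    (T : Finset (ι × ℝ)) (m₀ : ι × ℝ → ℤ) (hm : ∀ z ∈ T, HasOrder (X₀ z.1).V z.2 (m₀ z)) :
    ∑ z ∈ T, (m₀ z : ℝ) ^ 2 ≤ (N4 K : ℝ) := by
  have h0 := own_fin hab hmod X₀ hd T
  have h2 : ∀ z ∈ T, Tendsto (fun ε => size (X₀ z.1).V z.2 ε) (𝓝[>] 0) (𝓝 (-(m₀ z : ℝ))) :=
    fun z hz => lim_twist (K := K) hab (X₀ z.1) (hm z hz)
  have h1 := lim_sum (α := ι × ℝ) (H := T) (W := (N4 K : ℝ))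
    (s := fun z ε => size (X₀ z.1).V z.2 ε) h0 (y := fun z => -(m₀ z : ℝ)) h2
  refine le_trans (le_of_eq (Finset.sum_congr rfl fun k _ => ?_)) h1
  ring

open Pool.Agent.V7H83.BO in
theorem ext_orders (hab : 4 * a ^ 3 + 27 * b ^ 2 ≠ 0) (hmod : IsModular a b)
    {F : Type} [Field F] [NumberField F] [Algebra K F]
    (X₀ : ι → TwistOver (EC K a b) K) (X : ι → TwistOver (EC K a b) F)
    (hX : ∀ k, (X k).D = algebraMap (𝓞 K) (𝓞 F) (X₀ k).D)
    (hd : ∀ k l, k ≠ l → ¬ IsSquare (prod X₀ k l)) {q : ℕ}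
    (hq : ∀ k, Nat.card {l // RootInClosures K F F (prod X₀ k l)} ≤ q)
    (S : Finset (ι × ℝ)) (m₀ m : ι × ℝ → ℤ)
    (hm : ∀ z ∈ S, HasOrder (X₀ z.1).V z.2 (m₀ z) ∧ HasOrder (X z.1).V z.2 (m z)) :
    ∑ z ∈ S, ((m z : ℝ) - m₀ z) ^ 2 ≤ bound K F q := by
  have h0 := ext_bound hab hmod X₀ X hX hd hq S
  have h2 : ∀ z ∈ S, Tendsto (fun ε => size (X z.1).V z.2 ε - size (X₀ z.1).V z.2 ε) (𝓝[>] 0)
      (𝓝 (-(m z : ℝ) - -(m₀ z : ℝ))) := fun z hz =>
    (lim_twist (K := K) hab (X z.1) (hm z hz).2).sub (lim_twist (K := K) hab (X₀ z.1) (hm z hz).1)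
  have h1 := lim_sum (α := ι × ℝ) (H := S) (W := bound K F q)
    (s := fun z ε => size (X z.1).V z.2 ε - size (X₀ z.1).V z.2 ε) h0
    (y := fun z => -(m z : ℝ) - -(m₀ z : ℝ)) h2
  refine le_trans (le_of_eq (Finset.sum_congr rfl fun k _ => ?_)) h1
  ring

end

open Pool.Agent.V7H83.BO in
/-- **Quadratic twists over number fields.**  Let `E : y² = x³ + a x + b` be a modular elliptic curve
over `ℚ`, `K` a number field, `N_K = min([K : ℚ], 4)`, and `E_D` finitely many quadratic twists of `E`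
over `K`, with local minimal models (`X₀ k`, `D = (X₀ k).D`), the elements `D` being different in
`K^*/K^{*2}`.

1. For all finite sets `H` of pairs `(D, t)`, `∑_H size_K(D, t)² ≤ N_K + η` for all small `ε > 0`, where
`size = log |L(3/2 + i t + ε)| / log(1/ε)`, and `∑ m_K(D, t)² ≤ N_K` for the orders, if there are
continuations.  At most `N_K` of the functions `L(E_D/K, s)` have a zero or a pole on the line, and at
most `N_K/2` one which is not real.

2. Let `F` be a finite extension of `K`, `X k` the same twist over `F`, and suppose that for each `D` at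
most `q` of the products `D D'` have a square root in the Galois closure of `F`.  Then
`∑_H (size_F - size_K)² ≤ B + η` for all small `ε > 0` and `∑ (m_F - m_K)² ≤ B`, where
`B = N_K min((d - 1)², q (r - 1))`.  At most `B` of the twists have different orders over `F` and over `K`
at some point of the line, and at most `B/2` at a point which is not real.  At most `q N_F` of the
functions `L(E_D/F, s)` have a zero or a pole on the line, and at most `q N_F/2` one which is not real.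

3. Let `L_j` be finitely many extensions of `K`, pairwise linearly disjoint, and suppose that the products
`D D'` have no square roots in the compositum of the closures of two of the fields `L_j`, except for the
squares.  Then `∑_H (size_K² + ∑_j (size_j - size_K)² / (r_j - 1)) ≤ N_K + η` and
`∑ m_K² + ∑ (m_j - m_K)² / (r_j - 1) ≤ N_K`.  If `L_j ≠ K`, `r_j ≤ r + 1` for all `j`, then at most
`r N_K` of the pairs `(D, L_j)` have different orders over `L_j` and over `K` at some point of the line,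
and at most `r N_K/2` at a point which is not real.

The quadratic twists of `X_0(11)` and `X_0(14)` are modular. -/
theorem result :
    (∀ a b : ℤ, 4 * a ^ 3 + 27 * b ^ 2 ≠ 0 → IsModular a b →
      ∀ (K : Type) [Field K] [NumberField K] (ι : Type) [Fintype ι]
        (X₀ : ι → TwistOver (EC K a b) K), (∀ k l, k ≠ l → ¬ IsSquare (prod X₀ k l)) →
        ((∀ (H : Finset (ι × ℝ)) (η : ℝ), 0 < η → ∀ᶠ ε : ℝ in 𝓝[>] 0,
            ∑ z ∈ H, size (X₀ z.1).V z.2 ε ^ 2 ≤ (N4 K : ℝ) + η) ∧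
          (∀ (T : Finset (ι × ℝ)) (m₀ : ι × ℝ → ℤ),
            (∀ z ∈ T, HasOrder (X₀ z.1).V z.2 (m₀ z)) →
            ∑ z ∈ T, (m₀ z : ℝ) ^ 2 ≤ (N4 K : ℝ)) ∧
          Nat.card {k // ∃ τ, ZeroOrPole (X₀ k).V τ} ≤ N4 K ∧
          2 * Nat.card {k // ∃ τ, τ ≠ 0 ∧ ZeroOrPole (X₀ k).V τ} ≤ N4 K) ∧
        (∀ (F : Type) [Field F] [NumberField F] [Algebra K F] (X : ι → TwistOver (EC K a b) F),
          (∀ k, (X k).D = algebraMap (𝓞 K) (𝓞 F) (X₀ k).D) →
          ∀ q : ℕ, (∀ k, Nat.card {l // RootInClosures K F F (prod X₀ k l)} ≤ q) →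
            (∀ (H : Finset (ι × ℝ)) (η : ℝ), 0 < η → ∀ᶠ ε : ℝ in 𝓝[>] 0,
              ∑ z ∈ H, (size (X z.1).V z.2 ε - size (X₀ z.1).V z.2 ε) ^ 2 ≤ bound K F q + η) ∧
            (∀ (S : Finset (ι × ℝ)) (m₀ m : ι × ℝ → ℤ),
              (∀ z ∈ S, HasOrder (X₀ z.1).V z.2 (m₀ z) ∧ HasOrder (X z.1).V z.2 (m z)) →
              ∑ z ∈ S, ((m z : ℝ) - m₀ z) ^ 2 ≤ bound K F q) ∧
            (Nat.card {k // ∃ τ, Differ (X₀ k).V (X k).V τ} : ℝ) ≤ bound K F q ∧
            2 * (Nat.card {k // ∃ τ, τ ≠ 0 ∧ Differ (X₀ k).V (X k).V τ} : ℝ) ≤ bound K F q ∧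
            Nat.card {k // ∃ τ, ZeroOrPole (X k).V τ} ≤ q * N4 F ∧
            2 * Nat.card {k // ∃ τ, τ ≠ 0 ∧ ZeroOrPole (X k).V τ} ≤ q * N4 F) ∧
        (∀ (κ : Type) [Fintype κ] (L : κ → Type) [∀ j, Field (L j)] [∀ j, NumberField (L j)]
          [∀ j, Algebra K (L j)] (X : ι → ∀ j, TwistOver (EC K a b) (L j)),
          (∀ k j, (X k j).D = algebraMap (𝓞 K) (𝓞 (L j)) (X₀ k).D) →
          (∀ i j, i ≠ j → IsField (L i ⊗[K] L j)) →
          (∀ i j k l, RootInClosures K (L i) (L j) (prod X₀ k l) → IsSquare (prod X₀ k l)) →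
            (∀ (H : Finset (ι × ℝ)) (η : ℝ), 0 < η → ∀ᶠ ε : ℝ in 𝓝[>] 0,
              ∑ z ∈ H, (size (X₀ z.1).V z.2 ε ^ 2 + ∑ j,
                (size (X z.1 j).V z.2 ε - size (X₀ z.1).V z.2 ε) ^ 2 /
                  ((pairOrbits K (L j) : ℝ) - 1)) ≤ (N4 K : ℝ) + η) ∧
            (∀ (T : Finset (ι × ℝ)) (S : Finset ((ι × ℝ) × κ)) (m₀ : ι × ℝ → ℤ)
              (m : (ι × ℝ) × κ → ℤ), (∀ z ∈ T, HasOrder (X₀ z.1).V z.2 (m₀ z)) →
              (∀ w ∈ S, HasOrder (X₀ w.1.1).V w.1.2 (m₀ w.1) ∧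
                HasOrder (X w.1.1 w.2).V w.1.2 (m w)) →
              ∑ z ∈ T, (m₀ z : ℝ) ^ 2 + ∑ w ∈ S, ((m w : ℝ) - m₀ w.1) ^ 2 /
                ((pairOrbits K (L w.2) : ℝ) - 1) ≤ (N4 K : ℝ)) ∧
            (∀ r : ℕ, (∀ j, 1 < Module.finrank K (L j) ∧ pairOrbits K (L j) ≤ r + 1) →
              Nat.card {w : ι × κ // ∃ τ, Differ (X₀ w.1).V (X w.1 w.2).V τ} ≤
                r * N4 K ∧
              2 * Nat.card {w : ι × κ // ∃ τ, τ ≠ 0 ∧ Differ (X₀ w.1).V (X w.1 w.2).V τ} ≤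
                r * N4 K))) ∧
    ∀ g : ℤ, g ≠ 0 → IsModular (-13392 * g ^ 2) (-1080432 * g ^ 3) ∧
      IsModular (5805 * g ^ 2) (-285714 * g ^ 3) := by
  classical
  refine ⟨fun a b hab hmod K _ _ ι _ X₀ hd => ⟨⟨?_, ?_, ?_⟩, fun F _ _ _ X hX q hq =>
      ⟨?_, ?_, ?_⟩, fun κ _ L _ _ _ X hX hdisj hc => ⟨?_, ?_, ?_⟩⟩,
    fun g hg => ⟨Pool.Agent.X288.L2.modular11 hg, Pool.Agent.X288.L2.modular14 hg⟩⟩
  · exact fun H η hη => own_fin hab hmod X₀ hd H η hη
  · exact own_orders hab hmod X₀ hd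
  · have key := count (s := fun k τ ε => size (X₀ k).V τ ε) (W := (N4 K : ℝ))
      (fun k τ ε => Pool.Agent.V7H44.HF.size_neg _ τ ε) (own_fin hab hmod X₀ hd)
    have imp : ∀ (P : ℝ → Prop) (k : ι), (∃ τ, P τ ∧ ZeroOrPole (X₀ k).V τ) →
        ∃ τ : ℝ, P τ ∧ ∃ y : ℝ, 1 ≤ y ^ 2 ∧
          Tendsto (fun ε => size (X₀ k).V τ ε) (𝓝[>] 0) (𝓝 y) := by
      rintro P k ⟨τ, hP, m, hm, ho⟩
      refine ⟨τ, hP, -(m : ℝ), ?_, lim_twist hab (X₀ k) ho⟩
      have h5 := Int.one_le_abs hm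
      have h6 : (1 : ℝ) ≤ |(m : ℝ)| := by exact_mod_cast h5
      have h7 := pow_le_pow_left₀ zero_le_one h6 2
      rw [one_pow, sq_abs] at h7
      rwa [neg_sq]
    constructor
    · have h1 := card_mono (P := fun k => ∃ τ, ZeroOrPole (X₀ k).V τ)
        (Q := fun k => ∃ τ : ℝ, ∃ y : ℝ, 1 ≤ y ^ 2 ∧
          Tendsto (fun ε => size (X₀ k).V τ ε) (𝓝[>] 0) (𝓝 y)) (fun k ⟨τ, h⟩ => by
          obtain ⟨τ', -, h'⟩ := imp (fun _ => True) k ⟨τ, trivial, h⟩
          exact ⟨τ', h'⟩)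
      exact h1.trans (by exact_mod_cast key.1)
    · have h1 := card_mono (P := fun k => ∃ τ, τ ≠ 0 ∧ ZeroOrPole (X₀ k).V τ)
        (Q := fun k => ∃ τ : ℝ, τ ≠ 0 ∧ ∃ y : ℝ, 1 ≤ y ^ 2 ∧
          Tendsto (fun ε => size (X₀ k).V τ ε) (𝓝[>] 0) (𝓝 y)) (imp fun τ => τ ≠ 0)
      have h2 : 2 * Nat.card {k // ∃ τ : ℝ, τ ≠ 0 ∧ ∃ y : ℝ, 1 ≤ y ^ 2 ∧
          Tendsto (fun ε => size (X₀ k).V τ ε) (𝓝[>] 0) (𝓝 y)} ≤ N4 K := by
        exact_mod_cast key.2
      omega
  · exact fun H η hη => ext_bound hab hmod X₀ X hX hd hq H η hη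
  · exact ext_orders hab hmod X₀ X hX hd hq
  · have key2 := count (s := fun k τ ε => size (X k).V τ ε - size (X₀ k).V τ ε)
      (W := bound K F q)
      (fun k τ ε => by
        rw [Pool.Agent.V7H44.HF.size_neg _ τ ε, Pool.Agent.V7H44.HF.size_neg _ τ ε])
      (ext_bound hab hmod X₀ X hX hd hq)
    have imp2 : ∀ (P : ℝ → Prop) (k : ι), (∃ τ, P τ ∧ Differ (X₀ k).V (X k).V τ) →
        ∃ τ : ℝ, P τ ∧ ∃ y : ℝ, 1 ≤ y ^ 2 ∧
          Tendsto (fun ε => size (X k).V τ ε - size (X₀ k).V τ ε) (𝓝[>] 0) (𝓝 y) := by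
      rintro P k ⟨τ, hP, m₀, m, h1, h2, hne⟩
      refine ⟨τ, hP, -(m : ℝ) - -(m₀ : ℝ), ?_,
        (lim_twist hab (X k) h2).sub (lim_twist hab (X₀ k) h1)⟩
      have h5 := Int.one_le_abs (sub_ne_zero.2 hne)
      have h6 : (1 : ℝ) ≤ |((m - m₀ : ℤ) : ℝ)| := by exact_mod_cast h5
      have h7 := pow_le_pow_left₀ zero_le_one h6 2
      rw [one_pow, sq_abs] at h7
      push_cast at h7
      linarith [h7, (by ring : (-(m : ℝ) - -(m₀ : ℝ)) ^ 2 = ((m : ℝ) - m₀) ^ 2)]
    have imp3 : ∀ (P : ℝ → Prop) (k : ι), (∃ τ, P τ ∧ ZeroOrPole (X k).V τ) →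
        ∃ τ : ℝ, P τ ∧ ∃ y : ℝ, 1 ≤ y ^ 2 ∧
          Tendsto (size (X k).V τ) (𝓝[>] 0) (𝓝 y) := by
      rintro P k ⟨τ, hP, m, hm, ho⟩
      refine ⟨τ, hP, -(m : ℝ), ?_, lim_twist hab (X k) ho⟩
      have h5 := Int.one_le_abs hm
      have h6 : (1 : ℝ) ≤ |(m : ℝ)| := by exact_mod_cast h5
      have h7 := pow_le_pow_left₀ zero_le_one h6 2
      rw [one_pow, sq_abs] at h7
      rwa [neg_sq]
    have hq2 : ∀ k, Nat.card {l // IsSquare (((X k).D : F) * ((X l).D : F))} ≤ q := by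
      intro k
      refine (card_mono (fun l hl => ?_)).trans (hq k)
      refine root_of_square (K := K) (F := F) ?_
      have e : algebraMap K F (prod X₀ k l) = ((X k).D : F) * ((X l).D : F) := by
        unfold prod
        rw [map_mul, hX k, hX l]
        rfl
      rw [e]
      exact hl
    have key3 := count_up (K := K) hab hmod X hq2
    refine ⟨?_, ?_, ?_, ?_⟩
    · have h1 := card_mono (P := fun k => ∃ τ, Differ (X₀ k).V (X k).V τ)
        (Q := fun k => ∃ τ : ℝ, ∃ y : ℝ, 1 ≤ y ^ 2 ∧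
          Tendsto (fun ε => size (X k).V τ ε - size (X₀ k).V τ ε) (𝓝[>] 0) (𝓝 y))
        (fun k ⟨τ, h⟩ => by
          obtain ⟨τ', -, h'⟩ := imp2 (fun _ => True) k ⟨τ, trivial, h⟩
          exact ⟨τ', h'⟩)
      exact le_trans (by exact_mod_cast h1) key2.1
    · have h1 := card_mono (P := fun k => ∃ τ, τ ≠ 0 ∧ Differ (X₀ k).V (X k).V τ)
        (Q := fun k => ∃ τ : ℝ, τ ≠ 0 ∧ ∃ y : ℝ, 1 ≤ y ^ 2 ∧
          Tendsto (fun ε => size (X k).V τ ε - size (X₀ k).V τ ε) (𝓝[>] 0) (𝓝 y))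
        (imp2 fun τ => τ ≠ 0)
      have h2 : (Nat.card {k // ∃ τ, τ ≠ 0 ∧ Differ (X₀ k).V (X k).V τ} : ℝ) ≤
          (Nat.card {k // ∃ τ : ℝ, τ ≠ 0 ∧ ∃ y : ℝ, 1 ≤ y ^ 2 ∧
            Tendsto (fun ε => size (X k).V τ ε - size (X₀ k).V τ ε) (𝓝[>] 0) (𝓝 y)} : ℝ) := by
        exact_mod_cast h1
      linarith [key2.2]
    · refine le_trans (card_mono (P := fun k => ∃ τ, ZeroOrPole (X k).V τ)
        (fun k ⟨τ, h⟩ => ?_)) key3.1
      obtain ⟨τ', -, h'⟩ := imp3 (fun _ => True) k ⟨τ, trivial, h⟩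
      exact ⟨τ', h'⟩
    · exact le_trans (Nat.mul_le_mul_left 2 (card_mono
        (P := fun k => ∃ τ, τ ≠ 0 ∧ ZeroOrPole (X k).V τ) (imp3 fun τ => τ ≠ 0))) key3.2
  · exact fun H η hη => joint_fin hab hmod X₀ X hX hd hdisj hc H η hη
  · intro T S m₀ m hm₀ hm
    have h2 : ∀ z ∈ T, Tendsto (size (X₀ z.1).V z.2) (𝓝[>] 0) (𝓝 (-(m₀ z : ℝ))) :=
      fun z hz => lim_twist (K := K) hab (X₀ z.1) (hm₀ z hz)
    have h3 : ∀ w ∈ S, Tendsto (fun ε => size (X w.1.1 w.2).V w.1.2 ε -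
        size (X₀ w.1.1).V w.1.2 ε) (𝓝[>] 0) (𝓝 (-(m w : ℝ) - -(m₀ w.1 : ℝ))) := fun w hw =>
      (lim_twist (K := K) hab (X w.1.1 w.2) (hm w hw).2).sub
        (lim_twist (K := K) hab (X₀ w.1.1) (hm w hw).1)
    have h1 := joint_lims hab hmod X₀ X hX hd hdisj hc T S (fun z => -(m₀ z : ℝ))
      (fun w => -(m w : ℝ) - -(m₀ w.1 : ℝ)) h2 h3
    refine le_trans (le_of_eq ?_) h1
    congr 1
    · exact Finset.sum_congr rfl fun z _ => (neg_sq _).symm
    · refine Finset.sum_congr rfl fun z _ => ?_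
      congr 1
      ring
  · intro r hr
    have key := count_pairs hab hmod X₀ X hX hd hdisj hc hr
    have imp : ∀ (P : ℝ → Prop) (w : ι × κ),
        (∃ τ, P τ ∧ Differ (X₀ w.1).V (X w.1 w.2).V τ) →
        ∃ τ : ℝ, P τ ∧ ∃ y : ℝ, 1 ≤ y ^ 2 ∧
          Tendsto (fun ε => size (X w.1 w.2).V τ ε - size (X₀ w.1).V τ ε) (𝓝[>] 0) (𝓝 y) := by
      rintro P w ⟨τ, hP, m₀, m, h1, h2, hne⟩
      refine ⟨τ, hP, -(m : ℝ) - -(m₀ : ℝ), ?_,
        (lim_twist hab (X w.1 w.2) h2).sub (lim_twist hab (X₀ w.1) h1)⟩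
      have h5 := Int.one_le_abs (sub_ne_zero.2 hne)
      have h6 : (1 : ℝ) ≤ |((m - m₀ : ℤ) : ℝ)| := by exact_mod_cast h5
      have h7 := pow_le_pow_left₀ zero_le_one h6 2
      rw [one_pow, sq_abs] at h7
      push_cast at h7
      linarith [h7, (by ring : (-(m : ℝ) - -(m₀ : ℝ)) ^ 2 = ((m : ℝ) - m₀) ^ 2)]
    constructor
    · refine le_trans (card_mono (P := fun w : ι × κ =>
        ∃ τ, Differ (X₀ w.1).V (X w.1 w.2).V τ) (fun w ⟨τ, h⟩ => ?_)) key.1
      obtain ⟨τ', -, h'⟩ := imp (fun _ => True) w ⟨τ, trivial, h⟩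
      exact ⟨τ', h'⟩
    · have h1 := card_mono (P := fun w : ι × κ =>
        ∃ τ, τ ≠ 0 ∧ Differ (X₀ w.1).V (X w.1 w.2).V τ) (imp fun τ => τ ≠ 0)
      exact le_trans (Nat.mul_le_mul_left 2 h1) key.2

end Pool.Agent.Results.MP_bf9450_nt.QuadraticTwistsH83
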