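import Pool.Agent.V7H48.VF.Exist
import Pool.Agent.V7H48.VF.Virt
import Pool.Agent.X288.L2.Inst

/-!
# Rational elliptic curves over families of number fields: the line `Re s = 3/2`

`E : y² = x³ + a x + b` is an elliptic curve over `ℚ` with a newform (`IsModular`; by the modularity
theorem this is every elliptic curve over `ℚ`), `K` is ANY number field, and `L_j` (`j ∈ ι`) is ANY
finite family of finite extensions of `K` (not necessarily Galois, not necessarily disjoint).  Let
`r_jk = cross K L_j L_k` be the number of the orbits of the Galois group of `K` on the pairs (a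
`K`-embedding of `L_j`, a `K`-embedding of `L_k`), that is the number of the fields in `L_j ⊗_K L_k`;
`R = (r_jk)` is the Gram matrix `gram K L` of the family.  `N = N4 K = min([K : ℚ], 4)`.

The functions `L(E/L_j, s)` are not known to have a continuation.  `HasOrder V_j τ m` says that there is
a meromorphic continuation to a neighbourhood of `3/2 + iτ`, with the order `m` there; `size` is
`log |L(3/2 + iτ + ε)| / log(1/ε)`.

1. (Gram inequality) For all finite sets `T` of real numbers and all real `c_jτ`, and `η > 0`,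
`(∑_{τ, j} c_jτ size_j(τ))² ≤ N ∑_τ ∑_{j,k} c_jτ c_kτ r_jk + η` for all small `ε > 0`.
2. (Ellipsoid) If `R x_τ = m_τ` for the vectors of the orders `m_τ = (m_j(τ))_j`, then
`∑_{τ ∈ T} x_τ · m_τ ≤ N`, that is `∑_τ m_τᵗ R⁻¹ m_τ ≤ N`.
3. If `det R ≠ 0`, there are at most `|det R| N` real `τ` such that all the `L(E/L_j, s)` have
continuations near `3/2 + iτ` and not all of them have the order zero.
4. If `K = ℚ` and `det R = ±1` (a unimodular family), this is possible only at the real point `τ = 0`, and
then the vector of the orders is `m = R x`, with an integral vector `x` of norm `xᵗ R x = 1` and of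
degree `|∑_j x_j [L_j : ℚ]| ≤ 2`.
5. A chain is a family `L_0, …, L_m` with `r_kl = min(k, l) + 1`.  Then `det R = 1`, (2) is
`∑_τ (m_0(τ)² + ∑_k (m_{k+1}(τ) - m_k(τ))²) ≤ N`; and if `K = ℚ`, then
`L(E/L_k, s)` and `L(E/L_{k+1}, s)` have the same order at every point of the line which is not real and
where both have a continuation, and at the real point, if `[L_{k+1} : K] ≥ [L_k : K] + 3`.
6. Let `F/K` be an extension of degree at least `2m`, whose Galois group is
`2m`-transitive (for example the symmetric group).  The fields `L_k`, `k = 0, …, m`, which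
belong to the sets of `k` embeddings of `F` (for example the field of the sum of `k` roots of a general
generating polynomial) exist and form a chain, `[L_k : K] = C([F : K], k)`, and
`[L_{k+1} : K] ≥ [L_k : K] + 3` if `[F : K] ≥ 5`.
7. The quadratic twists of `X_0(11)` and `X_0(14)` are modular (from the starting files).

The starting file `BaseChangeOrbits` is the case `K = ℚ`, one field and one point; the starting
file `ModularEdgeNumberFields` of `MP_fb225e_nt` has, for `K = ℚ`, one integral combination of fields at a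
time.  `DisjointExtensionsH44` is for pairwise linearly disjoint extensions of `K`.

Proof.  The second moment of `a_v / √(N v)` over the primes of `K` is at most `N`.  The functions
`v ↦ fix_j(Frob_v) cos(τ log N v)` have the scalar products `r_jk` for the same `τ` (Chebotarev and
Burnside) and are orthogonal for different `|τ|`.  The form with the matrix `R` is nonnegative, a null
vector is in its kernel, and `(adj R) m` is integral.  For the strict inequalities, equality in the
inequality of Cauchy and Schwarz would need `|a_v / √(N v)|` to be proportional to the class function,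
which has a value larger than `2`.
-/

set_option autoImplicit false

namespace Pool.Agent.Results.MP_bf9450_nt.VirtualFieldsH48

open NumberField IsDedekindDomain Filter Topology
open Pool.Agent.X288.L2 (EC)
open Pool.Agent.TH322.BC.Edge (MinimalModels size HasOrder)
open Pool.Agent.Y722.EP (IsModular)
open Pool.Agent.W353.EF (perm)
open Pool.Agent.V7H48.VF
open Pool.Agent.V7H44.HF (N4)

open Classical in
/-- **The L-functions of a modular elliptic curve over families of number fields.** -/
theorem result :
    (∀ a b : ℤ, 4 * a ^ 3 + 27 * b ^ 2 ≠ 0 → IsModular a b →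
      ∀ (K : Type) [Field K] [NumberField K],
        (∀ (ι : Type) [Fintype ι] (L : ι → Type) [∀ j, Field (L j)] [∀ j, NumberField (L j)]
          [∀ j, Algebra K (L j)]
          (V : ∀ j, HeightOneSpectrum (𝓞 (L j)) → WeierstrassCurve (𝓞 (L j))),
          (∀ j, MinimalModels (EC (L j) a b) (V j)) →
          (∀ (T : Finset ℝ) (c : ι → ℝ → ℝ) (η : ℝ), 0 < η → ∀ᶠ ε : ℝ in 𝓝[>] 0,
            (∑ τ ∈ T, ∑ j, c j τ * size (V j) τ ε) ^ 2 ≤
              (N4 K : ℝ) *
                (∑ τ ∈ T, ∑ j, ∑ k, c j τ * c k τ * (cross K (L j) (L k) : ℝ)) + η) ∧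
          (∀ (T : Finset ℝ) (m : ι → ℝ → ℤ) (x : ι → ℝ → ℝ),
            (∀ τ ∈ T, ∀ j, HasOrder (V j) τ (m j τ)) →
            (∀ τ ∈ T, ∀ j, ∑ k, (cross K (L j) (L k) : ℝ) * x k τ = m j τ) →
            ∑ τ ∈ T, ∑ j, x j τ * (m j τ : ℝ) ≤ (N4 K : ℝ)) ∧
          ((gram K L).det ≠ 0 →
            {τ : ℝ | ∃ m : ι → ℤ, (∀ j, HasOrder (V j) τ (m j)) ∧ m ≠ 0}.encard ≤
              ((gram K L).det.natAbs * N4 K : ℕ)) ∧
          (Module.finrank ℚ K = 1 → IsUnit (gram K L).det →
            ∀ (τ : ℝ) (m : ι → ℤ), (∀ j, HasOrder (V j) τ (m j)) → m ≠ 0 →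
              τ = 0 ∧ ∃ x : ι → ℤ, (∀ j, ∑ k, (cross K (L j) (L k) : ℤ) * x k = m j) ∧
                ∑ j, ∑ k, x j * x k * (cross K (L j) (L k) : ℤ) = 1 ∧
                |∑ j, x j * (Module.finrank K (L j) : ℤ)| ≤ 2)) ∧
        ∀ (m : ℕ) (L : Fin (m + 1) → Type) [∀ k, Field (L k)] [∀ k, NumberField (L k)]
          [∀ k, Algebra K (L k)], (∀ k l, cross K (L k) (L l) = min (k : ℕ) (l : ℕ) + 1) →
          (gram K L).det = 1 ∧
          ∀ V : ∀ k, HeightOneSpectrum (𝓞 (L k)) → WeierstrassCurve (𝓞 (L k)),
            (∀ k, MinimalModels (EC (L k) a b) (V k)) →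
            (∀ (T : Finset ℝ) (n : Fin (m + 1) → ℝ → ℤ),
              (∀ τ ∈ T, ∀ k, HasOrder (V k) τ (n k τ)) →
              ∑ τ ∈ T, ((n 0 τ : ℝ) ^ 2 +
                ∑ k : Fin m, ((n k.succ τ : ℝ) - n k.castSucc τ) ^ 2) ≤
              (N4 K : ℝ)) ∧
            (Module.finrank ℚ K = 1 → ∀ (k : Fin m) (τ : ℝ) (n n' : ℤ),
              (τ ≠ 0 ∨ Module.finrank K (L k.castSucc) + 3 ≤ Module.finrank K (L k.succ)) →
              HasOrder (V k.castSucc) τ n → HasOrder (V k.succ) τ n' → n' = n)) ∧
    (∀ (K F : Type) [Field K] [NumberField K] [Field F] [NumberField F] [Algebra K F],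
      (Function.Surjective (perm K F) → ∀ m : ℕ, MultiplyTransitive K F m) ∧
      ∀ m : ℕ, 2 * m ≤ Module.finrank K F → MultiplyTransitive K F (2 * m) →
        (∀ k ≤ m, ∃ (L : Type) (_ : Field L) (_ : NumberField L) (_ : Algebra K L),
          IsSubsetField K F L k) ∧
        ∀ (L : Fin (m + 1) → Type) [∀ k, Field (L k)] [∀ k, NumberField (L k)]
          [∀ k, Algebra K (L k)], (∀ k, IsSubsetField K F (L k) k) →
          (∀ k l, cross K (L k) (L l) = min (k : ℕ) (l : ℕ) + 1) ∧
          (∀ k, Module.finrank K (L k) = (Module.finrank K F).choose k) ∧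
          (5 ≤ Module.finrank K F → ∀ k : Fin m,
            Module.finrank K (L k.castSucc) + 3 ≤ Module.finrank K (L k.succ))) ∧
    ∀ g : ℤ, g ≠ 0 → IsModular (-13392 * g ^ 2) (-1080432 * g ^ 3) ∧
      IsModular (5805 * g ^ 2) (-285714 * g ^ 3) := by
  refine ⟨?_, ?_, fun g hg =>
    ⟨Pool.Agent.X288.L2.modular11 hg, Pool.Agent.X288.L2.modular14 hg⟩⟩
  · intro a b hab hmod K _ _
    have hN : Module.finrank ℚ K = 1 → N4 K = 1 := by
      intro h
      unfold N4
      rw [h]
      norm_num
    refine ⟨?_, ?_⟩
    · intro ι _ L _ _ _ V hV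
      refine ⟨fun T c η hη => gram_line L hab hmod hV T c hη,
        fun T m x hm hx => ellipsoid_line L hab hmod hV T m x hm hx,
        fun hdet => (uni_encard L hab hmod hdet hV).1, ?_⟩
      intro hK hdet τ m hm hm0
      have h0 : (gram K L).det ≠ 0 := hdet.ne_zero
      have h1 : τ = 0 := by
        by_contra hτ
        refine hm0 ((uni_encard L hab hmod h0 hV).2 ?_ τ hτ m hm)
        rw [hN hK, Int.isUnit_iff_natAbs_eq.1 hdet]
        norm_num
      subst h1
      exact ⟨rfl, uni_real L hab hmod (hN hK) hdet hV hm hm0⟩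
    · intro m L _ _ _ hc
      refine ⟨by convert chain_det L hc, fun V hV =>
        ⟨fun T n hm => chain_orders L hc hab hmod hV T n hm,
          fun hK k τ n n' h5 h1 h2 => chain_strict L hc hab hmod (hN hK) k h5 hV h2 h1⟩⟩
  · intro K F _ _ _ _ _
    refine ⟨fun hs m => transitive_of_surj hs m, fun m hn ht => ⟨?_, ?_⟩⟩
    · intro k hk
      exact exists_subset_of (m := 2 * m) (by omega) (by omega) ht
    · intro L _ _ _ hL
      exact ⟨fun k l => cross_subset (hL k) (hL l) (Nat.lt_succ_iff.1 k.2)
        (Nat.lt_succ_iff.1 l.2) hn ht, fun k => finrank_subset (hL k),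
        fun h5 k => subset_gap L hL hn h5 k⟩

end Pool.Agent.Results.MP_bf9450_nt.VirtualFieldsH48
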